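import Pool.Agent.H30.OmlB

open Pool.Agent.H30.Oml

theorem Pool.Agent.Results.MP_6fdd0d_al.Undec.result :
    ∃ (k : ℕ) (R : List (Term k × Term k)), ¬ ∃ f : ℕ × ℕ → Bool, Computable f ∧
      ∀ u v : Term k, (f (u.code, v.code) = true ↔ Deriv R u v) :=
  undec
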